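import Mathlib

namespace Pool.Agent.Results.MP_e74e95_nt.Three

open Finset

/-- The number of partitions of `n` with all parts in `A` and exactly `i` parts. -/
def c (A : Finset ℕ) (i n : ℕ) : ℕ :=
  #{p : n.Partition | (∀ a ∈ p.parts, a ∈ A) ∧ p.parts.card = i}

/-- `S_{A,k}(n) = ∑_{i=0}^{n} (-1)^i i^k c_A(i,n)`. -/
def S (A : Finset ℕ) (k n : ℕ) : ℤ :=
  ∑ i ∈ range (n + 1), (-1) ^ i * (i : ℤ) ^ k * c A i n

/-- `U m = {1!, 2!, ..., m!}`. -/
def U (m : ℕ) : Finset ℕ := (Icc 1 m).image Nat.factorial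

def ms (a b d : ℕ) : Multiset ℕ :=
  Multiset.replicate a 1 + Multiset.replicate b 2 + Multiset.replicate d 6

lemma hU : U 3 = {1, 2, 6} := by decide

lemma ms_eq (s : Multiset ℕ) (h : ∀ a ∈ s, a ∈ U 3) :
    s = ms (s.count 1) (s.count 2) (s.count 6) := by
  rw [hU] at h
  ext x
  unfold ms
  simp only [Multiset.count_add, Multiset.count_replicate]
  by_cases hx : x ∈ s
  · have := h x hx
    simp only [mem_insert, mem_singleton] at this
    rcases this with rfl | rfl | rfl <;> simp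
  · rw [Multiset.count_eq_zero.mpr hx]
    have h0 := Multiset.count_eq_zero.mpr hx
    split_ifs <;> first | omega | (subst_vars; omega)

lemma ms_sum (a b d : ℕ) : (ms a b d).sum = a + 2 * b + 6 * d := by
  simp [ms, mul_comm]

lemma ms_card (a b d : ℕ) : (ms a b d).card = a + b + d := by simp [ms]

lemma ms_mem (a b d x : ℕ) (h : x ∈ ms a b d) : x ∈ U 3 := by
  rw [hU]
  simp only [ms, Multiset.mem_add, Multiset.mem_replicate] at h
  simp only [mem_insert, mem_singleton]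
  tauto

lemma S_eq (g : ℕ → ℤ) (n : ℕ) : ∑ i ∈ range (n + 1), g i * c (U 3) i n =
    ∑ d ∈ range (n / 6 + 1), ∑ b ∈ range ((n - 6 * d) / 2 + 1), g (n - 5 * d - b) := by
  have h1 : ∑ i ∈ range (n + 1), g i * c (U 3) i n =
      ∑ p : n.Partition with (∀ a ∈ p.parts, a ∈ U 3), g p.parts.card := by
    rw [← sum_fiberwise_of_maps_to (s := univ.filter _) (t := range (n + 1))
      (g := fun p : n.Partition => p.parts.card)]
    · refine sum_congr rfl fun i _ => ?_
      rw [filter_filter, sum_congr rfl (g := fun _ => g i), sum_const, nsmul_eq_mul, mul_comm]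
      · rfl
      · intro p hp
        rw [(mem_filter.mp hp).2.2]
    · intro p hp
      have e := ms_eq p.parts (mem_filter.mp hp).2
      have h1 := p.parts_sum
      have h2 := congrArg Multiset.card e
      rw [e, ms_sum] at h1
      rw [ms_card] at h2
      exact mem_range.mpr (by omega)
  rw [h1, sum_sigma']
  symm
  refine sum_bij (fun x hx => ⟨ms (n - 6 * x.1 - 2 * x.2) x.2 x.1, fun hi => ?_, ?_⟩) ?_ ?_ ?_ ?_
  · have := ms_mem _ _ _ _ hi
    rw [hU] at this
    simp only [mem_insert, mem_singleton] at this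
    omega
  · simp only [mem_sigma, mem_range] at hx
    rw [ms_sum]
    omega
  · intro x _
    exact mem_filter.mpr ⟨mem_univ _, ms_mem _ _ _⟩
  · intro x _ y _ h
    have h' := congrArg Nat.Partition.parts h
    have h2 := congrArg (Multiset.count 2) h'
    have h6 := congrArg (Multiset.count 6) h'
    simp [ms, Multiset.count_replicate] at h2 h6
    exact Sigma.ext h6 (heq_of_eq h2)
  · intro p hp
    have e := ms_eq p.parts (mem_filter.mp hp).2
    have h1 := p.parts_sum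
    rw [e, ms_sum] at h1
    refine ⟨⟨p.parts.count 6, p.parts.count 2⟩, ?_, ?_⟩
    · simp only [mem_sigma, mem_range]
      omega
    · apply Nat.Partition.ext
      refine Eq.trans ?_ e.symm
      show ms _ _ _ = ms _ _ _
      congr 1
      dsimp only
      omega
  · intro x hx
    simp only [mem_sigma, mem_range] at hx
    rw [ms_card]
    congr 1
    omega

lemma inner (L B : ℕ) : 2 * ∑ b ∈ range B, (-1 : ℤ) ^ (L + B - b) * ((L + B - b : ℕ) : ℤ) ^ 2 =
    (-1) ^ (L + B) * ((L + B) * (L + B + 1)) - (-1) ^ L * (L * (L + 1)) := by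
  induction B with
  | zero => simp
  | succ B ih =>
    rw [sum_range_succ', mul_add]
    simp only [show ∀ b, L + (B + 1) - (b + 1) = L + B - b by omega]
    rw [ih, Nat.sub_zero, ← add_assoc, pow_succ (-1 : ℤ)]
    push_cast
    ring

lemma outer (j : ℤ) (t : ℕ) : 3 * ∑ d ∈ range (2 * t + 1),
    ((-1 : ℤ) ^ d * ((12 * j + 2 - 5 * d) * (12 * j + 3 - 5 * d)) -
      (6 * j - 2 * d) * (6 * j - 2 * d + 1)) =
    3 * ((12 * j + 2) * (12 * j + 3) - (120 * j + 50) * t + 50 * t * (t + 1)) -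
      (3 * (2 * t + 1) * (36 * j ^ 2 + 6 * j) - 3 * (24 * j + 2) * t * (2 * t + 1) +
        4 * t * (2 * t + 1) * (4 * t + 1)) := by
  induction t with
  | zero => simp; ring
  | succ t ih =>
    rw [show 2 * (t + 1) + 1 = 2 * t + 1 + 1 + 1 by ring, sum_range_succ, sum_range_succ, mul_add,
      mul_add, ih, pow_succ _ (2 * t + 1), pow_succ _ (2 * t), pow_mul, neg_one_sq, one_pow]
    push_cast
    ring

lemma S_val (j : ℕ) : 6 * S (U 3) 2 (12 * j + 2) =
    -104 * (j : ℤ) ^ 3 + 138 * j ^ 2 + 164 * j + 18 := by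
  unfold S
  rw [S_eq (fun i => (-1) ^ i * (i : ℤ) ^ 2), show (12 * j + 2) / 6 + 1 = 2 * j + 1 by omega,
    show (6 : ℤ) = 3 * 2 by norm_num, mul_assoc, mul_sum]
  rw [sum_congr rfl (g := fun d : ℕ => ((-1 : ℤ) ^ d * ((12 * j + 2 - 5 * d) *
    (12 * j + 3 - 5 * d)) - (6 * j - 2 * d) * (6 * j - 2 * d + 1))), outer]
  · ring
  · intro d hd
    have hd' := mem_range.mp hd
    obtain ⟨e, he⟩ : ∃ e, 2 * j = d + e := ⟨2 * j - d, by omega⟩
    have he' : (2 * j : ℤ) = d + e := by exact_mod_cast he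
    rw [show (12 * j + 2 - 6 * d) / 2 + 1 = 3 * e + 2 by omega,
      show 12 * j + 2 - 5 * d = (d + 3 * e) + (3 * e + 2) by omega, inner]
    have p1 : (-1 : ℤ) ^ (d + 3 * e + (3 * e + 2)) = (-1) ^ d := by
      rw [show d + 3 * e + (3 * e + 2) = d + 2 * (3 * e + 1) by ring, pow_add, pow_mul]
      simp
    have p2 : (-1 : ℤ) ^ (d + 3 * e) = 1 := Even.neg_one_pow ⟨j + e, by omega⟩
    rw [p1, p2]
    have : (e : ℤ) = 2 * j - d := by linarith
    push_cast
    rw [this]
    ring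

theorem result : ¬ ∀ m : ℕ, 2 ≤ m →
    (∀ k : ℕ, k ≤ m - 2 → ∃ N : ℕ, ∀ n ≥ N, 0 ≤ (-1) ^ ((n + 1) / 2) * S (U m) k n) ∧
    (∀ k : ℕ, m - 1 ≤ k → ∃ N : ℕ, ∀ n ≥ N, 0 ≤ (-1) ^ n * S (U m) k n) := by
  intro h
  obtain ⟨N, hN⟩ := (h 3 (by norm_num)).2 2 (by norm_num)
  have h1 := hN (12 * (N + 3) + 2) (by omega)
  have h2 := S_val (N + 3)
  rw [Even.neg_one_pow ⟨6 * (N + 3) + 1, by ring⟩, one_mul] at h1
  push_cast at h2
  have h3 : (0 : ℤ) ≤ N := Int.natCast_nonneg N
  nlinarith [mul_nonneg h3 h3, mul_nonneg h3 (mul_nonneg h3 h3)]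

end Pool.Agent.Results.MP_e74e95_nt.Three
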